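import Mathlib
import Pool.Agent.R404.MZ.Box

/-!
# Linear combinations of multiple zeta values vanish for few shifts of the first arguments

Let `T` be a set of at most `N` indices `(a, k_2, ..., k_t)` of depth at most `r` and let `c` be real
coefficients, not all zero. Then the function `∑_T c ζ(s + a, k_2, ..., k_t)` of `s` has at most
`R(N, r)` real zeros, where `R(N, r)` depends neither on the coefficients nor on the arguments. So a
linear relation between multiple zeta values with given coefficients is true for at most `R(N, r)`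
shifts `n` of all the first arguments (of the weights). There is also an explicit bound, which
depends on the size of the arguments but not on the number of terms.

The proof uses the zero estimates of `Pool.Agent.Y760.ZF` (helper760) for combinations of truncated
multiple harmonic sums and a rule of signs for Dirichlet series.
-/

set_option autoImplicit false

namespace Pool.Agent.Results.MP_4d52ff_nt.FewShifts

/-- `trunc [s_1, ..., s_r] m` is the sum of `∏ n_i ^ (-s_i)` over `m > n_1 > ... > n_r ≥ 1` -/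
noncomputable def trunc : List ℕ → ℕ → ℝ
  | [], _ => 1
  | s :: l, m => ∑ j ∈ Finset.Ico 1 m, trunc l j / (j : ℝ) ^ s

/-- the multiple zeta value `ζ(s_1, ..., s_r)`, `s_1` belongs to the largest variable -/
noncomputable def mzv : List ℕ → ℝ
  | [] => 1
  | s :: l => ∑' m : ℕ, trunc l (m + 1) / ((m + 1 : ℕ) : ℝ) ^ s

/-- `ζ(s + a, k_2, ..., k_t)` for the index `(a, k_2, ..., k_t)` and a real number `s` -/
noncomputable def shifted (s : ℝ) : List ℕ → ℝ
  | [] => 1
  | a :: l => ∑' m : ℕ, trunc l (m + 1) / ((m + 1 : ℕ) : ℝ) ^ (s + a)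

/-- the index `(n + a, k_2, ..., k_t)` for the index `(a, k_2, ..., k_t)` -/
def raise (n : ℕ) : List ℕ → List ℕ
  | [] => []
  | a :: l => (n + a) :: l

/-- nonempty lists of positive integers, the first one at least `2` -/
def Admissible (w : List ℕ) : Prop := (∀ x ∈ w, 1 ≤ x) ∧ ∃ a ∈ w.head?, 2 ≤ a

/-- the real zeros of `∑_T c ζ(s + a, k_2, ..., k_t)` in the domain of convergence -/
def zeros (T : Finset (List ℕ)) (c : List ℕ → ℝ) : Set ℝ :=
  {s | (∀ w ∈ T, ∀ a ∈ w.head?, 1 < s + a) ∧ ∑ w ∈ T, c w * shifted s w = 0}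

/-- the shifts for which the combination of multiple zeta values vanishes -/
def shifts (T : Finset (List ℕ)) (c : List ℕ → ℝ) : Set ℕ :=
  {n | ∑ w ∈ T, c w * mzv (raise n w) = 0}

lemma trunc_eq (w : List ℕ) : ∀ m, trunc w m = Pool.Agent.Y760.ZG.hr w m := by
  induction w with
  | nil => intro m; rw [trunc, Pool.Agent.Y760.ZG.hr_nil]
  | cons s w ih =>
    intro m
    rw [trunc, Pool.Agent.Y760.ZG.hr_cons]
    exact Finset.sum_congr rfl fun j _ => by rw [ih]

lemma shifted_eq (s : ℝ) {w : List ℕ} (hw : w ≠ []) :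
    shifted s w = Pool.Agent.R404.MZ.zt (s + ((w.headI : ℕ) : ℤ)) w.tail := by
  cases w with
  | nil => exact absurd rfl hw
  | cons a l =>
    rw [shifted, Pool.Agent.R404.MZ.zt]
    refine tsum_congr fun m => ?_
    rw [trunc_eq]
    simp

lemma shifted_nat (n : ℕ) (w : List ℕ) : shifted n w = mzv (raise n w) := by
  cases w with
  | nil => rfl
  | cons a l =>
    rw [shifted, raise, mzv]
    refine tsum_congr fun m => ?_
    rw [← Real.rpow_natCast, Nat.cast_add n a]

lemma shifts_le {T : Finset (List ℕ)} {c : List ℕ → ℝ} (hT : ∀ w ∈ T, Admissible w) :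
    (shifts T c).encard ≤ (zeros T c).encard := by
  rw [← (Nat.cast_injective (R := ℝ)).encard_image]
  refine Set.encard_le_encard ?_
  rintro _ ⟨n, hn, rfl⟩
  refine ⟨fun w hw a ha => ?_, ?_⟩
  · obtain ⟨b, hb, h2⟩ := (hT w hw).2
    rw [Option.mem_def] at ha hb
    rw [ha] at hb
    have h3 : (2 : ℝ) ≤ a := by
      have : b = a := by simpa using hb.symm
      exact_mod_cast this ▸ h2
    have h4 : (0 : ℝ) ≤ n := Nat.cast_nonneg n
    linarith
  · rw [← hn]
    exact Finset.sum_congr rfl fun w _ => by rw [shifted_nat]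

lemma card_le {R : ℕ} {X : Set ℝ} (h : ∀ S : Finset ℝ, (∀ s ∈ S, s ∈ X) → S.card ≤ R) :
    X.encard ≤ R := by
  by_contra hcon
  rw [not_le] at hcon
  have h1 : ((R + 1 : ℕ) : ℕ∞) ≤ X.encard := by
    have := Order.add_one_le_of_lt hcon
    exact_mod_cast this
  obtain ⟨t, ht, h2⟩ := Set.exists_subset_encard_eq h1
  have hfin : t.Finite := Set.finite_of_encard_eq_coe h2
  have h3 := h hfin.toFinset fun s hs => ht (hfin.mem_toFinset.1 hs)
  rw [hfin.encard_eq_coe_toFinset_card] at h2
  have h4 : hfin.toFinset.card = R + 1 := by exact_mod_cast h2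
  omega

lemma inj {T : Finset (List ℕ)} (hT : ∀ w ∈ T, Admissible w) :
    Function.Injective fun w : T => (((w : List ℕ).headI : ℤ), (w : List ℕ).tail) := by
  have h1 : ∀ w : List ℕ, Admissible w → w.headI :: w.tail = w := by
    intro w hw
    cases w with
    | nil =>
      obtain ⟨a, ha, _⟩ := hw.2
      simp at ha
    | cons a l => rfl
  rintro ⟨w, hw⟩ ⟨w', hw'⟩ h
  simp only [Prod.mk.injEq, Nat.cast_inj] at h
  apply Subtype.ext
  show w = w'
  rw [← h1 w (hT w hw), ← h1 w' (hT w' hw'), h.1, h.2]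

lemma ne_nil {w : List ℕ} (hw : Admissible w) : w ≠ [] := by
  rintro rfl
  obtain ⟨a, ha, _⟩ := hw.2
  simp at ha

lemma key {T : Finset (List ℕ)} {c : List ℕ → ℝ} (hT : ∀ w ∈ T, Admissible w) {s : ℝ}
    (hs : s ∈ zeros T c) : (∀ j : T, 1 < s + (((j : List ℕ).headI : ℤ) : ℝ)) ∧
      ∑ j : T, c j * Pool.Agent.R404.MZ.zt (s + (((j : List ℕ).headI : ℤ) : ℝ)) (j : List ℕ).tail
        = 0 := by
  refine ⟨fun j => ?_, ?_⟩
  · have h1 := ne_nil (hT j j.2)
    obtain ⟨w, hw⟩ := j
    cases w with
    | nil => exact absurd rfl h1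
    | cons a l => simpa using hs.1 _ hw a (by simp)
  · rw [← hs.2, ← Finset.sum_coe_sort T fun w => c w * shifted s w]
    exact Finset.sum_congr rfl fun j _ => by rw [shifted_eq s (ne_nil (hT j j.2))]

/-- (1) For all numbers `N` and `r` there is a number `R` such that for every set `T` of at most `N`
admissible indices of depth at most `r` and all real coefficients `c`, not all zero on `T`, the
combination `∑_T c ζ(s + a, k_2, ..., k_t)` has at most `R` real zeros `s`; in particular
`∑_T c ζ(n + a, k_2, ..., k_t) = 0` for at most `R` natural numbers `n`.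
(2) If the first arguments of the indices in `T` are between `A` and `A + D` and the other arguments,
of which there are at most `r`, are at most `J`, then this is true with `(D + 1) (J + 2) ^ r - 1`
instead of `R`. -/
theorem result :
    (∀ N r : ℕ, ∃ R : ℕ, ∀ T : Finset (List ℕ), T.card ≤ N →
      (∀ w ∈ T, Admissible w ∧ w.length ≤ r) → ∀ c : List ℕ → ℝ, (∃ w ∈ T, c w ≠ 0) →
      (zeros T c).encard ≤ R ∧ (shifts T c).encard ≤ R) ∧
    (∀ (A D J r : ℕ) (T : Finset (List ℕ)),
      (∀ w ∈ T, Admissible w ∧ w.length ≤ r + 1 ∧ (∀ x ∈ w.tail, x ≤ J) ∧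
        ∀ a ∈ w.head?, A ≤ a ∧ a ≤ A + D) → ∀ c : List ℕ → ℝ, (∃ w ∈ T, c w ≠ 0) →
      (zeros T c).encard ≤ ((D + 1) * (J + 2) ^ r - 1 : ℕ) ∧
      (shifts T c).encard ≤ ((D + 1) * (J + 2) ^ r - 1 : ℕ)) := by
  have htail : ∀ w : List ℕ, Admissible w → ∀ x ∈ w.tail, 1 ≤ x := fun w hw x hx =>
    hw.1 x (List.mem_of_mem_tail hx)
  have hne : ∀ (T : Finset (List ℕ)) (c : List ℕ → ℝ), (∃ w ∈ T, c w ≠ 0) →
      (fun j : T => c j) ≠ 0 := by
    rintro T c ⟨w, hw, h0⟩ h
    exact h0 (congrFun h ⟨w, hw⟩)
  refine ⟨fun N r => ?_, fun A D J r T hT c hc => ?_⟩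
  · obtain ⟨R, hR⟩ := Pool.Agent.R404.MZ.few_zeros N r
    refine ⟨R, fun T hN hT c hc => ?_⟩
    have hT' : ∀ w ∈ T, Admissible w := fun w hw => (hT w hw).1
    have h1 : (zeros T c).encard ≤ R := by
      refine card_le fun S hS => ?_
      exact hR T (by rwa [Fintype.card_coe]) (fun j => ((j : List ℕ).headI : ℤ))
        (fun j => (j : List ℕ).tail) (fun j => c j)
        (fun j => ⟨by
          have := (hT j j.2).2
          rw [List.length_tail]
          omega, htail _ (hT' j j.2)⟩)
        (inj hT') (hne T c hc) S fun s hs => key hT' (hS s hs)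
    exact ⟨h1, (shifts_le hT').trans h1⟩
  · have hT' : ∀ w ∈ T, Admissible w := fun w hw => (hT w hw).1
    have hhead : ∀ w ∈ T, A ≤ w.headI ∧ w.headI ≤ A + D := by
      intro w hw
      have h1 := ne_nil (hT' w hw)
      have h2 := (hT w hw).2.2.2
      cases w with
      | nil => exact absurd rfl h1
      | cons a l => exact h2 a (by simp)
    have h1 : (zeros T c).encard ≤ ((D + 1) * (J + 2) ^ r - 1 : ℕ) := by
      refine card_le fun S hS => ?_
      exact Pool.Agent.R404.MZ.box_zeros J r D (fun j : T => ((j : List ℕ).headI : ℤ))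
        (fun j => (j : List ℕ).tail) (fun j => c j)
        (fun j => ⟨by
          have := (hT j j.2).2.1
          rw [List.length_tail]
          omega, fun x hx => ⟨htail _ (hT' j j.2) x hx, (hT j j.2).2.2.1 x hx⟩⟩)
        (fun i j => by
          have h3 := (hhead i i.2).2
          have h4 := (hhead j j.2).1
          omega)
        (inj hT') (hne T c hc) S fun s hs => key hT' (hS s hs)
    exact ⟨h1, (shifts_le hT').trans h1⟩

end Pool.Agent.Results.MP_4d52ff_nt.FewShifts
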