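import Mathlib
import Pool.Agent.R404.MZ.Fin

/-!
# Directness of the weight grading for sums whose number of terms grows as a power of the weight

Consider `a_0 + ∑_T c_w ζ(w)`, where `a_0` and `c_w` are integers with `|c_w| ≤ 2 ^ (N ^ γ)` and `T`
is a set of indices of weights between `N - J` and `N + 2 J`: the first argument is between `N - J`
and `N + J`, the other ones, at most `r`, have sum at most `J`. Here `2 (J + 2) ^ (r + 1) ≤ N ^ δ` and
`(J + 2) ^ (2 r + 3) ≤ N ^ (1 - τ)`, so that the number of weights and the number of terms may grow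
as powers of `N`. For large `N` the sum is
not zero, even modulo arbitrarily many multiple zeta values with at least `ε N` arguments `≥ 2` and
with real coefficients of at most exponential size, unless `a_0` and all `c_w` are zero.
-/

set_option autoImplicit false

namespace Pool.Agent.Results.MP_4d52ff_nt.GrowingSums

/-- `trunc [s_1, ..., s_r] m` is the sum of `∏ n_i ^ (-s_i)` over `m > n_1 > ... > n_r ≥ 1` -/
noncomputable def trunc : List ℕ → ℕ → ℝ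
  | [], _ => 1
  | s :: l, m => ∑ j ∈ Finset.Ico 1 m, trunc l j / (j : ℝ) ^ s

/-- the multiple zeta value `ζ(s_1, ..., s_r)`, `s_1` belongs to the largest variable -/
noncomputable def mzv : List ℕ → ℝ
  | [] => 1
  | s :: l => ∑' m : ℕ, trunc l (m + 1) / ((m + 1 : ℕ) : ℝ) ^ s

/-- the number of arguments `≥ 2` -/
def height (w : List ℕ) : ℕ := w.countP (fun s => decide (2 ≤ s))

/-- indices `(a, k_2, ..., k_t)` with `N - J ≤ a ≤ N + J`, where the `k_i` are positive, their number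
is at most `r` and their sum is at most `J` -/
def Near (r J N : ℕ) (w : List ℕ) : Prop :=
  ∃ a k, w = a :: k ∧ k.length ≤ r ∧ (∀ x ∈ k, 1 ≤ x) ∧ k.sum ≤ J ∧ N ≤ a + J ∧ a ≤ N + J

lemma trunc_eq (w : List ℕ) : ∀ m, trunc w m = Pool.Agent.Y760.ZG.hr w m := by
  induction w with
  | nil => intro m; rw [trunc, Pool.Agent.Y760.ZG.hr_nil]
  | cons s w ih =>
    intro m
    rw [trunc, Pool.Agent.Y760.ZG.hr_cons]
    exact Finset.sum_congr rfl fun j _ => by rw [ih]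

lemma mzv_eq : mzv = Pool.Agent.Y760.ZG.mz := by
  funext w
  cases w with
  | nil => rw [mzv, Pool.Agent.Y760.ZG.mz]
  | cons s w =>
    rw [mzv, Pool.Agent.Y760.ZG.mz]
    exact tsum_congr fun m => by rw [trunc_eq]

/-- Let `0 < δ < ε`, `γ + δ < 1`, `0 < τ < 1`, let `κ, C` be real numbers and `r` a natural number.
For all large `N`, all `J` with `2 (J + 2) ^ (r + 1) ≤ N ^ δ` and
`(J + 2) ^ (2 r + 3) ≤ N ^ (1 - τ)`, all finite sets `T` of indices in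
`Near r J N`, all integers `a_0` and `c_w` with `|c_w| ≤ 2 ^ (N ^ γ)`, all finite sets `H` of
admissible indices of weight at most `κ N` with at least `ε N` arguments `≥ 2` and all real `b_h` with
`|b_h| ≤ C ^ N`: if `|a_0 + ∑_T c_w ζ(w) - ∑_H b_h ζ(h)| ≤ N ^ (-ε N)`, then `a_0 = 0` and `c_w = 0` for
every `w` in `T`. -/
theorem result (r : ℕ) (κ C δ γ τ ε : ℝ) (hδ : 0 < δ) (hδε : δ < ε) (hγ : γ + δ < 1)
    (hτ : 0 < τ) (hτ1 : τ < 1) :
    ∃ N0 : ℕ, ∀ N : ℕ, N0 ≤ N → ∀ J : ℕ, 2 * ((J + 2 : ℕ) : ℝ) ^ (r + 1) ≤ (N : ℝ) ^ δ →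
      ((J + 2 : ℕ) : ℝ) ^ (2 * r + 3) ≤ (N : ℝ) ^ (1 - τ) →
      ∀ T : Finset (List ℕ), (∀ w ∈ T, Near r J N w) → ∀ (a0 : ℤ) (c : List ℕ → ℤ),
      (∀ w ∈ T, |(c w : ℝ)| ≤ (2 : ℝ) ^ ((N : ℝ) ^ γ)) →
      ∀ H : Finset (List ℕ), (∀ h ∈ H, (∀ m ∈ h, 1 ≤ m) ∧ (∀ x ∈ h.head?, 2 ≤ x) ∧
        (h.sum : ℝ) ≤ κ * N ∧ ε * N ≤ height h) →
      ∀ b : List ℕ → ℝ, (∀ h ∈ H, |b h| ≤ C ^ N) →
      |(a0 : ℝ) + ∑ w ∈ T, (c w : ℝ) * mzv w - ∑ h ∈ H, b h * mzv h| ≤ ((N : ℝ) ^ (ε * N))⁻¹ →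
      a0 = 0 ∧ ∀ w ∈ T, c w = 0 := by
  rw [mzv_eq]
  obtain ⟨N0, h0⟩ := Pool.Agent.R404.MZ.asyF r κ C δ γ τ ε hδ hδε hγ hτ hτ1
  refine ⟨N0, fun N hN J hJ hJ' T hT a0 c hcC H hH b hb hle => ?_⟩
  by_contra hcon
  refine absurd hle (not_le.2 (h0 N hN J hJ hJ' T hT a0 c ?_ hcC H hH b hb))
  by_cases h1 : a0 = 0
  · right
    by_contra h2
    push Not at h2
    exact hcon ⟨h1, h2⟩
  · exact Or.inl h1

end Pool.Agent.Results.MP_4d52ff_nt.GrowingSums
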