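import Mathlib
import Pool.Agent.R473.DW.Mzw

set_option autoImplicit false

/-!
# Multiple zeta values of several large weights: linear forms with `S`-unit coefficients, and digits
-/

namespace Pool.Agent.Results.MP_4d52ff_nt.SeveralWeights

open Pool.Agent.R473.DW Pool.Agent.Y760.RT Pool.Agent.TH507.ZS Pool.Agent.R473.TB

/-- the multiple zeta value `ζ(k - |w|, w)` of weight `k`, for a tuple `w` of positive integers;
`mzv [s_1, …, s_r]` is the sum of `∏ n_i ^ (-s_i)` over `n_1 > … > n_r ≥ 1` -/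
noncomputable def val (k : ℕ) (w : List ℕ+) : ℝ :=
  mzv ((k - (w.map fun a : ℕ+ => (a : ℕ)).sum) :: w.map fun a : ℕ+ => (a : ℕ))

/-- the `k`-th digit after the point of `x` in base `b` (`k = 0` is the first one) -/
noncomputable def digit (b : ℕ) (x : ℝ) (k : ℕ) : ℤ := ⌊(b : ℝ) ^ (k + 1) * x⌋ % b

/-- `D` is a sum of `R` terms `a ∏ p ^ k(p)` over `p ∈ S`, with integers `|a| ≤ R` and integers
`|k(p)| ≤ X` -/
def SUnitSum (S : Finset ℕ) (R : ℕ) (X : ℝ) (D : ℚ) : Prop :=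
  ∃ (a : Fin R → ℤ) (k : Fin R → ℕ → ℤ), (∀ r, |a r| ≤ R) ∧ (∀ r, ∀ p ∈ S, |(k r p : ℝ)| ≤ X) ∧
    D = ∑ r, (a r : ℚ) * ∏ p ∈ S, (p : ℚ) ^ k r p

/-- the sum of the entries -/
def wt (w : List ℕ+) : ℕ := (w.map fun a : ℕ+ => (a : ℕ)).sum

lemma sub_eq {h k : ℕ} (hk : h ≤ k) (j : Fin (h + 1)) (a : ℕ) :
    k - (h - j + a) = k - h + j - a := by
  have := j.2
  omega

/-- **Result.** Let `Λ` be a finite set of tuples of positive integers and `h ≥ 0`. For a weight `k`
consider the multiple zeta values `ζ(k + j - |w|, w)`, `w ∈ Λ`, of the weights `k + j`, `0 ≤ j ≤ h`.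
(1) For every finite set `S` of primes there is `K ≥ 2` such that for all `R`, `C` and `B > 1`, all
large `k`, all `D_(j,w)`, not all zero, which are sums of at most `R` `S`-units of height
exponential in `C k`, and all integers `p`:
`|∑_j ∑_w D_(j,w) ζ(k + j - |w|, w) - p| > B ^ (-k) min(1, |D_(i,u)| K ^ (-k))` for all `i`, `u`.
(2) For every base `b` there is `κ` such that for all `ε > 0` and `C` and all large `k` no word of
at least `ε k` digits occurs at two different places, not both before `κ k`, in the first `C k`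
digits of the expansions of these numbers in base `b`. -/
theorem result (Λ : Finset (List ℕ+)) (h : ℕ) :
    (∀ S : Finset ℕ, (∀ p ∈ S, p.Prime) → ∃ K : ℕ, 2 ≤ K ∧ ∀ (R : ℕ) (C B : ℝ), 1 < B →
      ∃ k0 : ℕ, ∀ k : ℕ, k0 ≤ k → ∀ D : Fin (h + 1) → Λ → ℚ,
      (∀ j w, SUnitSum S R (C * k) (D j w)) → (∃ j w, D j w ≠ 0) →
      ∀ (p : ℤ) (i : Fin (h + 1)) (u : Λ), (B ^ k)⁻¹ * min 1 (|(D i u : ℝ)| / (K : ℝ) ^ k) <
        |∑ j : Fin (h + 1), ∑ w : Λ, (D j w : ℝ) * val (k + j) w - p|) ∧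
    (∀ b : ℕ, 2 ≤ b → ∃ κ : ℝ, 0 ≤ κ ∧ ∀ ε C : ℝ, 0 < ε → ∃ k0 : ℕ, ∀ k : ℕ, k0 ≤ k →
      ∀ (i j : Fin (h + 1)) (u w : Λ) (x y : ℕ), (x : ℝ) ≤ C * k → (y : ℝ) ≤ C * k →
      κ * k ≤ max x y → (i, u, x) ≠ (j, w, y) → ∃ l : ℕ, (l : ℝ) < ε * k ∧
        digit b (val (k + i) u) (x + l) ≠ digit b (val (k + j) w) (y + l)) := by
  set off : Fin (h + 1) × Λ → ℕ := fun s => h - s.1 + wt s.2 with hoff
  have hinj : Function.Injective fun s : Fin (h + 1) × Λ => (off s, (s.2 : List ℕ+)) := by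
    rintro ⟨j, w⟩ ⟨j', w'⟩ hs
    have h1 := (Prod.ext_iff.1 hs).1
    have h2 := (Prod.ext_iff.1 hs).2
    simp only [hoff] at h1 h2
    have h3 : w = w' := Subtype.ext h2
    subst h3
    have h4 : j = j' := Fin.ext (by
      have := j.2
      have := j'.2
      omega)
    rw [h4]
  have hval : ∀ (k : ℕ) (s : Fin (h + 1) × Λ),
      zt (s.2 : List ℕ+) (k + h - off s) = val (k + s.1) s.2 := by
    intro k s
    rw [zt, val, hoff]
    simp only []
    rw [sub_eq (by omega) s.1, Nat.add_sub_cancel]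
    rfl
  refine ⟨fun S hS => ?_, fun b hb => ?_⟩
  · obtain ⟨K, hK, hmain⟩ := wt_forms off (fun s => (s.2 : List ℕ+)) hinj hS
    refine ⟨K * K, by nlinarith, fun R C B hB => ?_⟩
    have hs1 : 1 < √B := by
      rw [← Real.sqrt_one]
      exact Real.sqrt_lt_sqrt (by norm_num) hB
    obtain ⟨k0, hk0⟩ := hmain R |C| (√B) hs1
    refine ⟨k0 + h, fun k hk D hD hD0 p i u => ?_⟩
    have hB2 : √B ^ (k + h) ≤ B ^ k := by
      have h1 : √B ^ (k + h) ≤ √B ^ (2 * k) := pow_le_pow_right₀ hs1.le (by omega)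
      refine h1.trans (le_of_eq ?_)
      rw [pow_mul, Real.sq_sqrt (by linarith)]
    have hK2 : (K : ℝ) ^ (k + h) ≤ ((K * K : ℕ) : ℝ) ^ k := by
      have hK1 : (1 : ℝ) ≤ K := by exact_mod_cast (by omega : 1 ≤ K)
      have h1 : (K : ℝ) ^ (k + h) ≤ (K : ℝ) ^ (2 * k) := pow_le_pow_right₀ hK1 (by omega)
      refine h1.trans (le_of_eq ?_)
      rw [pow_mul, pow_two]
      push_cast
      rfl
    have h1 := hk0 (k + h) (by omega) (fun s => D s.1 s.2) (fun s => Sm.mono (by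
      push_cast
      have := abs_nonneg C
      have h3 := le_abs_self C
      have h4 : (0 : ℝ) ≤ k := Nat.cast_nonneg k
      have h5 : (0 : ℝ) ≤ h := Nat.cast_nonneg h
      nlinarith) (hD s.1 s.2)) (by
      obtain ⟨j, w, hjw⟩ := hD0
      exact ⟨(j, w), hjw⟩) p (i, u)
    simp only [hval] at h1
    rw [Fintype.sum_prod_type] at h1
    refine lt_of_le_of_lt ?_ h1
    have hB0 : 0 < √B ^ (k + h) := by positivity
    have hKpos : (0 : ℝ) < K := by exact_mod_cast (by omega : 0 < K)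
    have hK0 : 0 < (K : ℝ) ^ (k + h) := by positivity
    gcongr
  · obtain ⟨κ, hκ, hmain⟩ := wt_digits off (fun s => (s.2 : List ℕ+)) hinj hb
    refine ⟨2 * κ, by positivity, fun ε C hε => ?_⟩
    obtain ⟨k0, hk0⟩ := hmain (ε / 2) |C| (by positivity)
    refine ⟨k0 + h, fun k hk i j u w x y hx hy hm hne => ?_⟩
    have hkr : (h : ℝ) ≤ k := by exact_mod_cast (by omega : h ≤ k)
    have h4 : (0 : ℝ) ≤ k := Nat.cast_nonneg k
    have h5 : (0 : ℝ) ≤ h := Nat.cast_nonneg h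
    have hC : C * k ≤ |C| * ((k + h : ℕ) : ℝ) := by
      push_cast
      have := abs_nonneg C
      have h3 := le_abs_self C
      nlinarith
    obtain ⟨l, hl, hd⟩ := hk0 (k + h) (by omega) (i, u) (j, w) x y (hx.trans hC) (hy.trans hC) (by
      refine le_trans ?_ hm
      push_cast
      nlinarith) (by
      intro he
      apply hne
      have h1 := (Prod.ext_iff.1 he).1
      have h2 := (Prod.ext_iff.1 he).2
      have h3 := (Prod.ext_iff.1 h1).1
      have h6 := (Prod.ext_iff.1 h1).2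
      simp only [] at h2 h3 h6
      rw [h2, h3, h6])
    have e1 : zt (u : List ℕ+) (k + h - off (i, u)) = val (k + i) u := hval k (i, u)
    have e2 : zt (w : List ℕ+) (k + h - off (j, w)) = val (k + j) w := hval k (j, w)
    rw [e1, e2] at hd
    refine ⟨l, hl.trans_le ?_, hd⟩
    push_cast
    nlinarith

end Pool.Agent.Results.MP_4d52ff_nt.SeveralWeights
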