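import Mathlib
import Pool.Agent.R390.MZ.Dir

set_option autoImplicit false

/-!
# A sharp threshold for the width of the relations between multiple zeta values of different weights

If the sum of the spaces `Z_j` is not direct, there is a number `D` such that `Z_M` never meets
`Z_(M-D+1) + ... + Z_(M-1)`, but meets `Z_(M-D) + ... + Z_(M-1)` for all large `M`, and even in a
space whose dimension is at least that of `Z_(M-N)`, `N` fixed.
-/

open Pool.Agent.R390.MZ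

namespace Pool.Agent.Results.MP_4d52ff_nt.WidthThreshold

/-- `Z p` is the `ℚ`-span of all multiple zeta values
`ζ(k_1, …, k_t) = ∑_{n_1 > … > n_t ≥ 1} ∏ n_i ^ (-k_i)` (`k_i ≥ 1`, `k_1 ≥ 2`) of weight `p`; the
empty index has the value `1` and the weight `0` -/
noncomputable def Z (p : ℕ) : Submodule ℚ ℝ :=
  Submodule.span ℚ
    {x : ℝ | ∃ t : ℕ, ∃ k : Fin t → ℕ,
      (∀ i, 1 ≤ k i) ∧ (∀ h : 0 < t, 2 ≤ k ⟨0, h⟩) ∧ (∑ i, k i) = p ∧
      x = ∑' n : {n : Fin t → ℕ // StrictAnti n ∧ ∀ i, 1 ≤ n i},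
            ∏ i, (((n.1 i : ℕ) : ℝ) ^ (k i))⁻¹}

/-- Either the sum of all `Z_j` is direct, or there are `D` and `N` with `1 ≤ D ≤ N` such that
`Z_M ∩ (Z_(M-D+1) + ... + Z_(M-1)) = 0` for all `M`, and
`dim (Z_M ∩ (Z_(M-D) + ... + Z_(M-1))) ≥ dim Z_(M-N) > 0` for all `M ≥ N` with `M ≠ N + 1`
(where `Z_j = 0` for `j < 0`). -/
theorem result :
    iSupIndep Z ∨ ∃ D N, 1 ≤ D ∧ D ≤ N ∧
      (∀ M, Z M ⊓ ⨆ j ∈ near (D - 1) M, Z j = ⊥) ∧
      ∀ M, N ≤ M → Module.finrank ℚ (Z (M - N)) ≤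
        Module.finrank ℚ ↥(Z M ⊓ ⨆ j ∈ near D M, Z j) ∧
        (M ≠ N + 1 → 0 < Module.finrank ℚ (Z (M - N))) := by
  have i : ∀ k, FiniteDimensional ℚ (Z k) := finite_Zs
  rcases threshold (Z := Z)
      (fun a b x hx y hy => Pool.Agent.H447R2.MZ.mul_mem a b x y hx hy) with h | ⟨D, N, h1, h2, h3, h4⟩
  · exact Or.inl h
  · refine Or.inr ⟨D, N, h1, h2, h3, fun M hM => ⟨h4 M hM, fun hne => ?_⟩⟩
    exact Submodule.one_le_finrank_iff.2 (Zs_ne_bot' (by omega))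

end Pool.Agent.Results.MP_4d52ff_nt.WidthThreshold
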